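import Mathlib

-- part Pool.Agent.Lib.MP_b7b1cf_co.U.OM
section

/-!
Universe-polymorphic copy of `Main`, with the painting lemma and elimination derived from
orthogonality of two systems of sign vectors.
-/

set_option autoImplicit false

namespace Pool.Agent.Lib.MP_b7b1cf_co.U

open Finset

universe u

variable {Ω : Type u} [Fintype Ω] [DecidableEq Ω]

/-- Composition of sign vectors. -/
def cmp (X Y : Ω → SignType) : Ω → SignType := fun e => if X e = 0 then Y e else X e

/-- The elimination axiom. -/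
def Elim (F : Set (Ω → SignType)) : Prop :=
  ∀ X ∈ F, ∀ Y ∈ F, ∀ e : Ω, X e ≠ 0 → X e = -Y e →
    ∃ Z ∈ F, Z e = 0 ∧ ∀ f : Ω, (X f = 0 ∨ X f ≠ -Y f) → Z f = (if X f = 0 then Y f else X f)

/-- Orthogonality of sign vectors. -/
def Orth (X Y : Ω → SignType) : Prop :=
  (∀ e : Ω, X e * Y e = 0) ∨ ∃ e f : Ω, X e * Y e = 1 ∧ X f * Y f = -1

/-- The orthogonal complement. -/
def perp (L : Set (Ω → SignType)) : Set (Ω → SignType) := {Y | ∀ X ∈ L, Orth X Y}

/-- The covector axioms. -/
structure IsOM (L : Set (Ω → SignType)) : Prop where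
  zero : (0 : Ω → SignType) ∈ L
  neg : ∀ X ∈ L, -X ∈ L
  comp : ∀ X ∈ L, ∀ Y ∈ L, cmp X Y ∈ L
  elim : Elim L

/-- The painting property. -/
def Paint (F G : Set (Ω → SignType)) : Prop :=
  ∀ (σ : Ω → SignType) (B : Ω → Prop) (e : Ω), σ e ≠ 0 →
    (∃ X ∈ F, X e = σ e ∧ (∀ f, σ f ≠ 0 → X f = 0 ∨ X f = σ f) ∧ (∀ f, σ f = 0 → B f → X f = 0)) ∨
    (∃ Y ∈ G, Y e = σ e ∧ (∀ f, σ f ≠ 0 → Y f = 0 ∨ Y f = σ f) ∧ (∀ f, σ f = 0 → ¬ B f → Y f = 0))

omit [Fintype Ω] [DecidableEq Ω] in
theorem Paint.symm {F G : Set (Ω → SignType)} (h : Paint F G) : Paint G F := by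
  intro σ B e he
  rcases h σ (fun f => ¬ B f) e he with ⟨X, hX, h1, h2, h3⟩ | ⟨Y, hY, h1, h2, h3⟩
  · exact Or.inr ⟨X, hX, h1, h2, h3⟩
  · exact Or.inl ⟨Y, hY, h1, h2, fun f hf hB => h3 f hf (not_not.2 hB)⟩

omit [Fintype Ω] [DecidableEq Ω] in
theorem orth_neg_right {X Y : Ω → SignType} (h : Orth X Y) : Orth X (-Y) := by
  rcases h with h | ⟨e, f, h1, h2⟩
  · left; intro e; simp [h e]
  · right; refine ⟨f, e, ?_, ?_⟩
    · simp [h2]
    · simp [h1]

omit [Fintype Ω] [DecidableEq Ω] in
theorem perp_zero (L : Set (Ω → SignType)) : (0 : Ω → SignType) ∈ perp L := by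
  intro X _; left; intro e; simp

omit [Fintype Ω] [DecidableEq Ω] in
theorem perp_neg (L : Set (Ω → SignType)) : ∀ Y ∈ perp L, -Y ∈ perp L :=
  fun _ hY X hX => orth_neg_right (hY X hX)

omit [Fintype Ω] [DecidableEq Ω] in
theorem perp_comp (L : Set (Ω → SignType)) : ∀ Y ∈ perp L, ∀ Y' ∈ perp L, cmp Y Y' ∈ perp L := by
  intro Y hY Y' hY' X hX
  rcases hY X hX with h | ⟨e, f, h1, h2⟩
  · have key : ∀ g, X g * cmp Y Y' g = X g * Y' g := by
      intro g
      have := h g
      unfold cmp
      split_ifs with h0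
      · rfl
      · have : X g = 0 := by
          rcases mul_eq_zero.1 this with h' | h'
          · exact h'
          · exact absurd h' h0
        simp [this]
    rcases hY' X hX with h' | ⟨e, f, h1, h2⟩
    · left; intro g; rw [key]; exact h' g
    · right; exact ⟨e, f, by rw [key]; exact h1, by rw [key]; exact h2⟩
  · right
    refine ⟨e, f, ?_, ?_⟩
    · have : Y e ≠ 0 := by intro h0; rw [h0] at h1; simp at h1
      simp [cmp, this, h1]
    · have : Y f ≠ 0 := by intro h0; rw [h0] at h2; simp at h2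
      simp [cmp, this, h2]

omit [Fintype Ω] in
/-- Composing finitely many sign vectors. -/
theorem comp_all {G : Set (Ω → SignType)} (h0 : (0 : Ω → SignType) ∈ G)
    (hc : ∀ X ∈ G, ∀ Y ∈ G, cmp X Y ∈ G) (Q : Ω → SignType → Prop) (hQ : ∀ f, Q f 0)
    (A : Finset Ω) (hA : ∀ a ∈ A, ∃ Y ∈ G, Y a ≠ 0 ∧ ∀ f, Q f (Y f)) :
    ∃ Y ∈ G, (∀ a ∈ A, Y a ≠ 0) ∧ ∀ f, Q f (Y f) := by
  induction A using Finset.induction_on with
  | empty => exact ⟨0, h0, by simp, fun f => hQ f⟩
  | insert a A _ ih =>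
    obtain ⟨Y, hY, h1, h2⟩ := ih (fun b hb => hA b (mem_insert_of_mem hb))
    obtain ⟨Y', hY', h1', h2'⟩ := hA a (mem_insert_self _ _)
    refine ⟨cmp Y Y', hc _ hY _ hY', ?_, ?_⟩
    · intro b hb
      unfold cmp
      split_ifs with h
      · rcases mem_insert.1 hb with rfl | hb
        · exact h1'
        · exact absurd h (h1 b hb)
      · exact h
    · intro f
      unfold cmp
      split_ifs
      · exact h2' f
      · exact h2 f

/-- The painting lemma, from its one-element case and orthogonality. -/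
theorem paint_of_base {F G : Set (Ω → SignType)} (hF : ∀ X ∈ F, -X ∈ F) (hG : ∀ X ∈ G, -X ∈ G)
    (horth : ∀ Y ∈ G, ∀ X ∈ F, Orth X Y)
    (hbase : ∀ (B : Ω → Prop) (e : Ω),
      (∃ X ∈ F, X e ≠ 0 ∧ ∀ f, f ≠ e → B f → X f = 0) ∨
      (∃ Y ∈ G, Y e ≠ 0 ∧ ∀ f, f ≠ e → ¬ B f → Y f = 0)) : Paint F G := by
  classical
  have sgn : ∀ (H : Set (Ω → SignType)), (∀ X ∈ H, -X ∈ H) → ∀ (σ : Ω → SignType) (P : Ω → Prop)
      (e : Ω), σ e ≠ 0 → (∀ f, f ≠ e → σ f = 0) →
      (∃ X ∈ H, X e ≠ 0 ∧ ∀ f, f ≠ e → P f → X f = 0) →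
      ∃ X ∈ H, X e = σ e ∧ (∀ f, σ f ≠ 0 → X f = 0 ∨ X f = σ f) ∧
        (∀ f, σ f = 0 → P f → X f = 0) := by
    rintro H hH σ P e he hone ⟨X, hXL, h2, h1⟩
    have h1' : ∀ f, σ f = 0 → P f → X f = 0 := fun f hf hB => h1 f (fun h => he (h ▸ hf)) hB
    by_cases h3 : X e = σ e
    · refine ⟨X, hXL, h3, ?_, h1'⟩
      intro f hf
      by_cases hfe : f = e
      · right; rw [hfe]; exact h3
      · exact absurd (hone f hfe) hf
    · have h4 : (-X) e = σ e := by
        simp only [Pi.neg_apply]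
        revert h2 h3 he
        generalize X e = x
        generalize σ e = y
        revert x y; decide
      refine ⟨-X, hH X hXL, h4, ?_, fun f hf hB => by simp [h1' f hf hB]⟩
      intro f hf
      by_cases hfe : f = e
      · right; rw [hfe]; exact h4
      · exact absurd (hone f hfe) hf
  have main : ∀ (k : ℕ) (σ : Ω → SignType) (B : Ω → Prop) (e : Ω), σ e ≠ 0 →
      (univ.filter (fun f => σ f ≠ 0)).card = k →
    (∃ X ∈ F, X e = σ e ∧ (∀ f, σ f ≠ 0 → X f = 0 ∨ X f = σ f) ∧
      (∀ f, σ f = 0 → B f → X f = 0)) ∨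
    (∃ Y ∈ G, Y e = σ e ∧ (∀ f, σ f ≠ 0 → Y f = 0 ∨ Y f = σ f) ∧
      (∀ f, σ f = 0 → ¬ B f → Y f = 0)) := by
    intro k
    induction k using Nat.strong_induction_on with
    | _ k ih =>
    intro σ B e he hk
    by_cases hone : ∀ f, f ≠ e → σ f = 0
    · exact (hbase B e).imp (sgn F hF σ B e he hone) (sgn G hG σ (fun f => ¬ B f) e he hone)
    · push Not at hone
      obtain ⟨g, hge, hg⟩ := hone
      let σ' : Ω → SignType := Function.update σ g 0
      have hσg : σ' g = 0 := by simp [σ']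
      have hσf : ∀ f, f ≠ g → σ' f = σ f := by intro f hf; simp [σ', hf]
      have hσe : σ' e = σ e := hσf e hge.symm
      have hlt : (univ.filter (fun f => σ' f ≠ 0)).card < k := by
        rw [← hk]
        apply card_lt_card
        refine ⟨?_, ?_⟩
        · intro c hc
          simp only [mem_filter, mem_univ, true_and] at hc ⊢
          have hcg : c ≠ g := by rintro rfl; exact hc hσg
          rw [← hσf c hcg]; exact hc
        · intro h
          have := h (mem_filter.2 ⟨mem_univ g, hg⟩)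
          exact (mem_filter.1 this).2 hσg
      have hne : ∀ f, σ f = 0 → f ≠ g := fun f hf h => hg (h ▸ hf)
      rcases ih _ hlt σ' (fun f => f = g ∨ B f) e (hσe ▸ he) rfl with
        ⟨X, hX, h1, h2, h3⟩ | ⟨Y, hY, hY1, hY2, hY3⟩
      · left
        refine ⟨X, hX, hσe ▸ h1, ?_, ?_⟩
        · intro f hf
          by_cases hfg : f = g
          · left; rw [hfg]; exact h3 g hσg (Or.inl rfl)
          · rw [← hσf f hfg] at hf ⊢; exact h2 f hf
        · intro f hf hB
          exact h3 f (by rw [hσf f (hne f hf)]; exact hf) (Or.inr hB)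
      rcases ih _ hlt σ' (fun f => f ≠ g ∧ B f) e (hσe ▸ he) rfl with
        ⟨X, hX, hX1, hX2, hX3⟩ | ⟨Y', hY', h1, h2, h3⟩
      swap
      · right
        refine ⟨Y', hY', hσe ▸ h1, ?_, ?_⟩
        · intro f hf
          by_cases hfg : f = g
          · left; rw [hfg]; exact h3 g hσg (by simp)
          · rw [← hσf f hfg] at hf ⊢; exact h2 f hf
        · intro f hf hB
          exact h3 f (by rw [hσf f (hne f hf)]; exact hf) (fun h => hB h.2)
      -- both remaining: use orthogonality
      have hg' : X g * Y g = -1 := by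
        rcases horth Y hY X hX with h | ⟨_, f, _, hf⟩
        · have := h e
          rw [hX1, hY1, hσe] at this
          exact absurd (mul_self_eq_zero.1 this) he
        · by_cases hfg : f = g
          · rw [← hfg]; exact hf
          · exfalso
            by_cases hs : σ' f = 0
            · by_cases hB : B f
              · rw [hX3 f hs ⟨hfg, hB⟩] at hf; simp at hf
              · rw [hY3 f hs (by simp [hfg, hB])] at hf; simp at hf
            · have a1 := hX2 f hs
              have a2 := hY2 f hs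
              revert a1 a2 hf
              generalize X f = x
              generalize Y f = y
              generalize σ' f = z
              revert x y z; decide
      have : X g = σ g ∨ Y g = σ g := by
        revert hg' hg
        generalize X g = x
        generalize Y g = y
        generalize σ g = z
        revert x y z; decide
      rcases this with h | h
      · left
        refine ⟨X, hX, hσe ▸ hX1, ?_, ?_⟩
        · intro f hf
          by_cases hfg : f = g
          · right; rw [hfg]; exact h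
          · rw [← hσf f hfg] at hf ⊢; exact hX2 f hf
        · intro f hf hB
          exact hX3 f (by rw [hσf f (hne f hf)]; exact hf) ⟨hne f hf, hB⟩
      · right
        refine ⟨Y, hY, hσe ▸ hY1, ?_, ?_⟩
        · intro f hf
          by_cases hfg : f = g
          · right; rw [hfg]; exact h
          · rw [← hσf f hfg] at hf ⊢; exact hY2 f hf
        · intro f hf hB
          exact hY3 f (by rw [hσf f (hne f hf)]; exact hf) (by simp [hne f hf, hB])
  intro σ B e he
  exact main _ σ B e he rfl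

end Pool.Agent.Lib.MP_b7b1cf_co.U
end

-- part Pool.Agent.Lib.MP_b7b1cf_co.U.Main
section

/-!
Duality, strong elimination and the main theorem on complementary pairs.
-/

set_option autoImplicit false

namespace Pool.Agent.Lib.MP_b7b1cf_co.U

open Finset

universe u

variable {Ω : Type u} [Fintype Ω] [DecidableEq Ω]

/-- Farkas form of the painting property. -/
theorem Paint.farkas {F G : Set (Ω → SignType)} (h : Paint F G) (h0 : (0 : Ω → SignType) ∈ G)
    (hc : ∀ X ∈ G, ∀ Y ∈ G, cmp X Y ∈ G) (σ : Ω → SignType) (B : Ω → Prop) :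
    (∃ X ∈ F, (∃ e, σ e ≠ 0 ∧ X e = σ e) ∧ (∀ f, σ f ≠ 0 → X f = 0 ∨ X f = σ f) ∧
      (∀ f, σ f = 0 → B f → X f = 0)) ∨
    (∃ Y ∈ G, (∀ f, σ f ≠ 0 → Y f = σ f) ∧ (∀ f, σ f = 0 → ¬ B f → Y f = 0)) := by
  classical
  by_cases h1 : ∃ X ∈ F, (∃ e, σ e ≠ 0 ∧ X e = σ e) ∧ (∀ f, σ f ≠ 0 → X f = 0 ∨ X f = σ f) ∧
      (∀ f, σ f = 0 → B f → X f = 0)
  · exact Or.inl h1
  right
  obtain ⟨Y, hY, h2, h3⟩ := comp_all h0 hc
    (fun f x => (σ f ≠ 0 → x = 0 ∨ x = σ f) ∧ (σ f = 0 → ¬ B f → x = 0))
    (fun f => ⟨fun _ => Or.inl rfl, fun _ _ => rfl⟩) (univ.filter (fun f => σ f ≠ 0)) (by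
      intro a ha
      have ha' : σ a ≠ 0 := (mem_filter.1 ha).2
      rcases h σ B a ha' with ⟨X, hX, a1, a2, a3⟩ | ⟨Y, hY, a1, a2, a3⟩
      · exact absurd ⟨X, hX, ⟨a, ha', a1⟩, a2, a3⟩ h1
      · exact ⟨Y, hY, by rw [a1]; exact ha', fun f => ⟨a2 f, a3 f⟩⟩)
  refine ⟨Y, hY, fun f hf => ?_, fun f => (h3 f).2⟩
  rcases (h3 f).1 hf with h4 | h4
  · exact absurd h4 (h2 f (mem_filter.2 ⟨mem_univ _, hf⟩))
  · exact h4

/-- Painting and orthogonality give elimination. -/
theorem elim_of_paint {F G : Set (Ω → SignType)} (hP : Paint F G) (h0 : (0 : Ω → SignType) ∈ G)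
    (hc : ∀ X ∈ G, ∀ Y ∈ G, cmp X Y ∈ G) (horth : ∀ Y ∈ G, ∀ X ∈ F, Orth X Y) : Elim G := by
  classical
  intro X hX Y hY e he hXY
  let σ : Ω → SignType := fun f => if X f = 0 ∨ X f ≠ -Y f then cmp X Y f else 0
  let B : Ω → Prop := fun f => (X f ≠ 0 ∧ X f = -Y f) ∧ f ≠ e
  rcases hP.farkas h0 hc σ B with
    ⟨W, hW, ⟨g, hg, hWg⟩, h2, h3⟩ | ⟨Z, hZ, h1, h2⟩
  · exfalso
    -- off `e` all products with `X` and with `Y` are nonnegative
    have hoff : ∀ f, f ≠ e → W f * X f ≠ -1 ∧ W f * Y f ≠ -1 := by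
      intro f hf
      have a2 := h2 f
      have a3 := h3 f
      simp only [σ, B, cmp, hf, ne_eq, not_false_eq_true, and_true] at a2 a3
      revert a2 a3
      generalize X f = x
      generalize Y f = y
      generalize W f = w
      revert x y w; decide
    have hpos : W g * X g = 1 ∨ W g * Y g = 1 := by
      simp only [σ, cmp] at hg hWg
      revert hg hWg
      generalize X g = x
      generalize Y g = y
      generalize W g = w
      revert x y w; decide
    have hge : g ≠ e := by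
      rintro rfl
      apply hg
      simp only [σ]
      rw [if_neg]
      push Not
      exact ⟨he, hXY⟩
    have oX := horth X hX W hW
    have oY := horth Y hY W hW
    have hneg : ∀ V : Ω → SignType, Orth W V → (∀ f, f ≠ e → W f * V f ≠ -1) →
        (∃ f, W f * V f = 1) → W e * V e = -1 := by
      intro V hV h1 ⟨f, hf⟩
      rcases hV with h | ⟨_, f', _, hf'⟩
      · rw [h f] at hf; exact absurd hf (by decide)
      · by_cases hfe : f' = e
        · rw [← hfe]; exact hf'
        · exact absurd hf' (h1 f' hfe)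
    have hrel : W e * X e = -(W e * Y e) := by rw [hXY]; simp
    rcases hpos with h | h
    · have b1 := hneg X oX (fun f hf => (hoff f hf).1) ⟨g, h⟩
      have b2 : W e * Y e = 1 := by
        rw [hrel] at b1; exact neg_injective b1
      have b3 := hneg Y oY (fun f hf => (hoff f hf).2) ⟨e, b2⟩
      rw [b2] at b3; exact absurd b3 (by decide)
    · have b1 := hneg Y oY (fun f hf => (hoff f hf).2) ⟨g, h⟩
      have b2 : W e * X e = 1 := by
        rw [hrel, b1]; decide
      have b3 := hneg X oX (fun f hf => (hoff f hf).1) ⟨e, b2⟩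
      rw [b2] at b3; exact absurd b3 (by decide)
  · refine ⟨Z, hZ, ?_, ?_⟩
    · apply h2 e
      · simp only [σ]
        rw [if_neg]
        push Not
        exact ⟨he, hXY⟩
      · simp [B]
    · intro f hf
      have hσ : σ f = cmp X Y f := by simp only [σ]; rw [if_pos hf]
      by_cases h0 : σ f = 0
      · rw [h2 f h0 (by
          intro hB
          rcases hf with hf | hf
          · exact hB.1.1 hf
          · exact hf hB.1.2)]
        rw [hσ] at h0
        exact h0.symm
      · rw [h1 f h0, hσ]; rfl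

omit [Fintype Ω] in
/-- Strong elimination. -/
theorem strong_elim {F : Set (Ω → SignType)} (hF : Elim F) (X : Ω → SignType) (hX : X ∈ F)
    (U : Finset Ω) : ∀ Y ∈ F, U.Nonempty → (∀ f ∈ U, X f ≠ 0 ∧ X f = -Y f) →
    ∃ e ∈ U, ∃ Z ∈ F, Z e = 0 ∧ (∀ f ∈ U, Z f = 0 ∨ Z f = X f) ∧
      ∀ f : Ω, (X f = 0 ∨ X f ≠ -Y f) → Z f = (if X f = 0 then Y f else X f) := by
  classical
  induction U using Finset.strongInduction with
  | H U ih =>
  intro Y hY ⟨e, he⟩ hU
  obtain ⟨Z, hZ, hZe, hZf⟩ := hF X hX Y hY e (hU e he).1 (hU e he).2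
  by_cases hne : (U.filter (fun f => X f = -Z f)).Nonempty
  · have hss : U.filter (fun f => X f = -Z f) ⊂ U := by
      refine ⟨filter_subset _ _, fun h => ?_⟩
      have := (mem_filter.1 (h he)).2
      rw [hZe] at this
      exact (hU e he).1 (by simpa using this)
    obtain ⟨e', he', Z', hZ', h1, h2, h3⟩ := ih _ hss Z hZ hne (fun f hf =>
      ⟨(hU f (mem_filter.1 hf).1).1, (mem_filter.1 hf).2⟩)
    refine ⟨e', (mem_filter.1 he').1, Z', hZ', h1, ?_, ?_⟩
    · intro f hf
      by_cases hf' : X f = -Z f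
      · exact h2 f (mem_filter.2 ⟨hf, hf'⟩)
      · right
        rw [h3 f (Or.inr hf'), if_neg (hU f hf).1]
    · intro f hf
      have a1 := hZf f hf
      have a2 := h3 f
      revert a1 a2 hf
      generalize X f = x
      generalize Y f = y
      generalize Z f = z
      generalize Z' f = z'
      revert x y z z'; decide
  · refine ⟨e, he, Z, hZ, hZe, ?_, hZf⟩
    intro f hf
    have a1 : X f ≠ -Z f := fun h => hne ⟨f, mem_filter.2 ⟨hf, h⟩⟩
    have a2 := (hU f hf).1
    revert a1 a2
    generalize X f = x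
    generalize Z f = z
    revert x z; decide

/-- From a weakly reversing element of `G` to a strictly reversing one. -/
theorem upgrade {F G : Set (Ω → SignType)} (hG : IsOM G) (hP : Paint F G)
    (τ : Ω → Ω) (hτ : ∀ w, τ (τ w) = w) (S : Ω → Prop) (hS : ∀ w, S (τ w) ↔ ¬ S w)
    (hind : ∀ X ∈ F, (∀ w, ¬ S w → X w = 0) → X = 0)
    (Y : Ω → SignType) (hY : Y ∈ G) (hY0 : Y ≠ 0) (hYw : ∀ s, S s → Y s ≠ 0 → Y (τ s) = -Y s) :
    ∃ Y ∈ G, Y ≠ 0 ∧ ∀ w, Y (τ w) = -Y w := by
  classical
  have main : ∀ (k : ℕ) (Y : Ω → SignType), Y ∈ G → Y ≠ 0 →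
      (∀ s, S s → Y s ≠ 0 → Y (τ s) = -Y s) →
      (univ.filter (fun s => S s ∧ Y s = 0)).card = k →
      ∃ Y ∈ G, Y ≠ 0 ∧ ∀ w, Y (τ w) = -Y w := by
    intro k
    induction k using Nat.strong_induction_on with
    | _ k ih =>
    intro Y hY hY0 hYw hk
    by_cases hall : ∀ s, S s → Y (τ s) = -Y s
    · refine ⟨Y, hY, hY0, fun w => ?_⟩
      by_cases hw : S w
      · exact hall w hw
      · have := hall (τ w) ((hS w).2 hw)
        rw [hτ] at this
        rw [this]; simp
    push Not at hall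
    obtain ⟨s, hs, hs'⟩ := hall
    have hYs : Y s = 0 := by
      by_contra h; exact hs' (hYw s hs h)
    have hYt : Y (τ s) ≠ 0 := by
      intro h; apply hs'; rw [h, hYs]; simp
    let σ : Ω → SignType := fun f => if f = s then - Y (τ s) else 0
    have hσs : σ s = - Y (τ s) := by simp [σ]
    have hσs' : σ s ≠ 0 := by rw [hσs]; simpa using hYt
    have hσf : ∀ f, f ≠ s → σ f = 0 := by intro f hf; simp [σ, hf]
    rcases hP σ (fun f => ¬ S f) s hσs' with ⟨X, hX, h1, _, h3⟩ | ⟨D, hD, h1, _, h3⟩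
    · exfalso
      have := hind X hX (fun w hw => h3 w (hσf w (by rintro rfl; exact hw hs)) hw)
      rw [this] at h1
      exact hσs' h1.symm
    · have hD0 : ∀ f, S f → f ≠ s → D f = 0 := fun f hf hfs => h3 f (hσf f hfs) (not_not.2 hf)
      have hc1 : ∀ f, Y f ≠ 0 → cmp Y D f = Y f := by intro f hf; simp [cmp, hf]
      have hc2 : ∀ f, Y f = 0 → cmp Y D f = D f := by intro f hf; simp [cmp, hf]
      refine ih ((univ.filter (fun s => S s ∧ cmp Y D s = 0)).card) ?_ (cmp Y D)
        (hG.comp Y hY D hD) ?_ ?_ rfl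
      · rw [← hk]
        apply card_lt_card
        refine ⟨?_, ?_⟩
        · intro c hc
          simp only [mem_filter, mem_univ, true_and] at hc ⊢
          refine ⟨hc.1, ?_⟩
          by_contra h
          rw [hc1 c h] at hc
          exact h hc.2
        · intro h
          have := h (mem_filter.2 ⟨mem_univ s, hs, hYs⟩)
          have := (mem_filter.1 this).2.2
          rw [hc2 s hYs, h1] at this
          exact hσs' this
      · intro h
        have := congrFun h (τ s)
        rw [hc1 _ hYt] at this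
        exact hYt this
      · intro f hf hf0
        by_cases hfs : f = s
        · rw [hfs, hc1 _ hYt, hc2 s hYs, h1, hσs]; simp
        · have hYf : Y f ≠ 0 := by
            intro h
            rw [hc2 f h, hD0 f hf hfs] at hf0
            exact hf0 rfl
          have h4 := hYw f hf hYf
          have h5 : Y (τ f) ≠ 0 := by rw [h4]; simpa using hYf
          rw [hc1 _ h5, hc1 _ hYf, h4]
  exact main _ Y hY hY0 hYw rfl

/-- The main theorem on complementary pairs. -/
theorem pairs_main {F G : Set (Ω → SignType)} (hF : IsOM F) (hG : IsOM G) (hP : Paint F G)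
    (τ : Ω → Ω) (hτ : ∀ w, τ (τ w) = w) (S : Ω → Prop) (hS : ∀ w, S (τ w) ↔ ¬ S w)
    (hind : ∀ X ∈ F, (∀ w, ¬ S w → X w = 0) → X = 0)
    (X : Ω → SignType) (hX : X ∈ F) (hX0 : X ≠ 0) (hXw : ∀ w, X (τ w) = X w) :
    ∃ Y ∈ G, Y ≠ 0 ∧ ∀ w, Y (τ w) = -Y w := by
  classical
  have main : ∀ (k : ℕ) (Z : Ω → SignType), Z ∈ F → Z ≠ 0 →
      (∀ t, ¬ S t → Z t ≠ 0 → Z (τ t) = Z t) →
      (univ.filter (fun t => ¬ S t ∧ Z t ≠ 0)).card = k →
      ∃ Y ∈ G, Y ≠ 0 ∧ ∀ w, Y (τ w) = -Y w := by
    intro k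
    induction k using Nat.strong_induction_on with
    | _ k ih =>
    intro Z hZ hZ0 hZw hk
    let σ : Ω → SignType := fun w => if S w then Z (τ w) else - Z w
    have hσS : ∀ w, S w → σ w = Z (τ w) := by intro w hw; simp [σ, hw]
    have hσT : ∀ w, ¬ S w → σ w = - Z w := by intro w hw; simp [σ, hw]
    rcases hP.farkas hG.zero hG.comp σ (fun w => ¬ S w) with
      ⟨W, hW, ⟨g, hg, hWg⟩, h2, h3⟩ | ⟨Y, hY, h1, h2⟩
    · have hW0 : W ≠ 0 := by
        intro h; rw [h] at hWg; exact hg hWg.symm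
      have hU : ∀ t, ¬ S t → W t ≠ 0 → Z t ≠ 0 ∧ Z t = - W t := by
        intro t ht hWt
        have a1 : σ t ≠ 0 := fun h => hWt (h3 t h ht)
        have a2 : W t = σ t := (h2 t a1).resolve_left hWt
        rw [hσT t ht] at a1 a2
        exact ⟨by simpa using a1, by rw [a2]; simp⟩
      have hne : (univ.filter (fun t => ¬ S t ∧ W t ≠ 0)).Nonempty := by
        by_contra h
        apply hW0
        apply hind W hW
        intro w hw
        by_contra h'
        exact h ⟨w, mem_filter.2 ⟨mem_univ _, hw, h'⟩⟩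
      obtain ⟨e, he, Z', hZ', b1, b2, b3⟩ := strong_elim hF.elim Z hZ _ W hW hne
        (fun f hf => hU f (mem_filter.1 hf).2.1 (mem_filter.1 hf).2.2)
      have he' := (mem_filter.1 he).2
      have hZe := (hU e he'.1 he'.2).1
      have hT : ∀ t, ¬ S t → Z' t = 0 ∨ Z' t = Z t := by
        intro t ht
        by_cases hWt : W t = 0
        · right
          have := b3 t (by rw [hWt]; by_cases h : Z t = 0 <;> simp [h])
          rw [this, hWt]
          split_ifs with h
          · exact h.symm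
          · rfl
        · exact b2 t (mem_filter.2 ⟨mem_univ _, ht, hWt⟩)
      have hSs : ∀ t, ¬ S t → Z t ≠ 0 → Z' (τ t) = Z t := by
        intro t ht hZt
        have c1 := hZw t ht hZt
        have c2 : σ (τ t) = Z t := by rw [hσS _ ((hS t).2 ht), hτ]
        have c3 := h2 (τ t) (by rw [c2]; exact hZt)
        have c4 := b3 (τ t)
        rw [c2] at c3
        rw [c1] at c4
        revert c3 c4 hZt
        generalize Z t = z
        generalize W (τ t) = w
        generalize Z' (τ t) = z'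
        revert z w z'; decide
      refine ih ((univ.filter (fun t => ¬ S t ∧ Z' t ≠ 0)).card) ?_ Z' hZ' ?_ ?_ rfl
      · rw [← hk]
        apply card_lt_card
        refine ⟨?_, ?_⟩
        · intro c hc
          simp only [mem_filter, mem_univ, true_and] at hc ⊢
          refine ⟨hc.1, ?_⟩
          rcases hT c hc.1 with h | h
          · exact absurd h hc.2
          · rw [← h]; exact hc.2
        · intro h
          have := h (mem_filter.2 ⟨mem_univ e, he'.1, hZe⟩)
          exact (mem_filter.1 this).2.2 b1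
      · intro h
        have := hSs e he'.1 hZe
        rw [h] at this
        exact hZe this.symm
      · intro t ht hZt
        have c1 : Z' t = Z t := (hT t ht).resolve_left hZt
        rw [c1] at hZt ⊢
        exact hSs t ht hZt
    · refine upgrade hG hP τ hτ S hS hind Y hY ?_ ?_
      · intro h
        apply hZ0
        apply hind Z hZ
        intro w hw
        by_contra h'
        have c1 : σ w ≠ 0 := by rw [hσT w hw]; simpa using h'
        have := h1 w c1
        rw [h] at this
        exact c1 this.symm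
      · intro s hs hYs
        have c1 : σ s ≠ 0 := fun h => hYs (h2 s h (not_not.2 hs))
        have c2 : ¬ S (τ s) := fun h => (hS s).1 h hs
        have c3 : σ (τ s) = - σ s := by rw [hσT _ c2, hσS s hs]
        rw [h1 s c1, h1 (τ s) (by rw [c3]; simpa using c1), c3]
  exact main _ X hX hX0 (fun t _ _ => hXw t) rfl

/-- Direct sum of two sign vector systems. -/
def dsum {E : Type u} (A B : Set (E → SignType)) : Set (E ⊕ E → SignType) :=
  {Z | (fun e => Z (Sum.inl e)) ∈ A ∧ (fun e => Z (Sum.inr e)) ∈ B}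

theorem dsum_isOM {E : Type u} {A B : Set (E → SignType)} (hA : IsOM A) (hB : IsOM B) :
    IsOM (dsum A B) := by
  refine ⟨⟨hA.zero, hB.zero⟩, fun X hX => ⟨hA.neg _ hX.1, hB.neg _ hX.2⟩,
    fun X hX Y hY => ⟨hA.comp _ hX.1 _ hY.1, hB.comp _ hX.2 _ hY.2⟩, ?_⟩
  intro X hX Y hY e he hXY
  rcases e with e | e
  · obtain ⟨Z, hZ, h1, h2⟩ := hA.elim _ hX.1 _ hY.1 e he hXY
    refine ⟨Sum.elim Z (fun f => cmp X Y (Sum.inr f)), ⟨hZ, hB.comp _ hX.2 _ hY.2⟩, h1, ?_⟩
    intro f hf
    rcases f with f | f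
    · exact h2 f hf
    · rfl
  · obtain ⟨Z, hZ, h1, h2⟩ := hB.elim _ hX.2 _ hY.2 e he hXY
    refine ⟨Sum.elim (fun f => cmp X Y (Sum.inl f)) Z, ⟨hA.comp _ hX.1 _ hY.1, hZ⟩, h1, ?_⟩
    intro f hf
    rcases f with f | f
    · rfl
    · exact h2 f hf

theorem dsum_paint {E : Type u} {A B A' B' : Set (E → SignType)} (hA : IsOM A) (hB : IsOM B)
    (hA' : IsOM A') (hB' : IsOM B') (h1 : Paint A A') (h2 : Paint B B') :
    Paint (dsum A B) (dsum A' B') := by
  intro σ P e he
  rcases e with e | e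
  · rcases h1 (fun f => σ (Sum.inl f)) (fun f => P (Sum.inl f)) e he with
      ⟨X, hX, a1, a2, a3⟩ | ⟨X, hX, a1, a2, a3⟩
    · left
      refine ⟨Sum.elim X 0, ⟨hX, hB.zero⟩, a1, ?_, ?_⟩
      · rintro (f | f) hf
        · exact a2 f hf
        · exact Or.inl rfl
      · rintro (f | f) hf hP
        · exact a3 f hf hP
        · rfl
    · right
      refine ⟨Sum.elim X 0, ⟨hX, hB'.zero⟩, a1, ?_, ?_⟩
      · rintro (f | f) hf
        · exact a2 f hf
        · exact Or.inl rfl
      · rintro (f | f) hf hP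
        · exact a3 f hf hP
        · rfl
  · rcases h2 (fun f => σ (Sum.inr f)) (fun f => P (Sum.inr f)) e he with
      ⟨X, hX, a1, a2, a3⟩ | ⟨X, hX, a1, a2, a3⟩
    · left
      refine ⟨Sum.elim 0 X, ⟨hA.zero, hX⟩, a1, ?_, ?_⟩
      · rintro (f | f) hf
        · exact Or.inl rfl
        · exact a2 f hf
      · rintro (f | f) hf hP
        · rfl
        · exact a3 f hf hP
    · right
      refine ⟨Sum.elim 0 X, ⟨hA'.zero, hX⟩, a1, ?_, ?_⟩
      · rintro (f | f) hf
        · exact Or.inl rfl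
        · exact a2 f hf
      · rintro (f | f) hf hP
        · rfl
        · exact a3 f hf hP

/-- The pair version: a common element of `A`, `B` yields a common element of the duals. -/
theorem common_of_common {E : Type u} [Fintype E] [DecidableEq E] {A B A' B' : Set (E → SignType)}
    (hA : IsOM A) (hB : IsOM B) (hA' : IsOM A') (hB' : IsOM B') (h1 : Paint A A')
    (h2 : Paint B B') (P : E → Prop)
    (iA : ∀ X ∈ A, (∀ e, ¬ P e → X e = 0) → X = 0)
    (iB : ∀ X ∈ B, (∀ e, P e → X e = 0) → X = 0)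
    (h : ∃ X : E → SignType, X ≠ 0 ∧ X ∈ A ∧ X ∈ B) :
    ∃ Y : E → SignType, Y ≠ 0 ∧ Y ∈ A' ∧ Y ∈ B' := by
  obtain ⟨X, hX0, hXA, hXB⟩ := h
  obtain ⟨Y, hY, hY0, hYw⟩ := pairs_main (dsum_isOM hA hB) (dsum_isOM hA' hB')
    (dsum_paint hA hB hA' hB' h1 h2) Sum.swap (fun w => Sum.swap_swap w)
    (Sum.elim P (fun e => ¬ P e)) (by rintro (e | e) <;> simp)
    (by
      intro Z hZ hz
      have a1 := iA _ hZ.1 (fun e he => hz (Sum.inl e) he)
      have a2 := iB _ hZ.2 (fun e he => hz (Sum.inr e) (by simpa using he))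
      funext w
      rcases w with e | e
      · exact congrFun a1 e
      · exact congrFun a2 e)
    (Sum.elim X X) ⟨hXA, hXB⟩
    (by
      intro h
      apply hX0
      funext e
      exact congrFun h (Sum.inl e))
    (by rintro (e | e) <;> rfl)
  refine ⟨fun e => Y (Sum.inl e), ?_, hY.1, ?_⟩
  · intro h
    apply hY0
    funext w
    rcases w with e | e
    · exact congrFun h e
    · have := hYw (Sum.inl e)
      have h' : Y (Sum.inl e) = 0 := congrFun h e
      rw [h'] at this
      simpa using this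
  · have := hB'.neg _ hY.2
    convert this using 1
    funext e
    have := hYw (Sum.inr e)
    simpa using this

end Pool.Agent.Lib.MP_b7b1cf_co.U
end
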